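import Pool.Agent.Y377.IL.StmC
import Pool.Agent.TH143.GT.Desc
import Pool.Agent.TH143.GT.Sec

/-!
# Project IL, the statement LGT: varieties covered by images of the punctured line
-/

set_option autoImplicit false

namespace Pool.Agent.Y405.IL

open MvPolynomial Pool.Agent.TH143.GT

theorem t_LGT : Pool.Agent.Y377.IL.S_LGT := by
  intro n p Q q K _ _ w y hQh hy M _ _ P hrel hbd hw hL
  obtain ⟨j, k, hjk⟩ := hw
  obtain ⟨c, e, hc, hce⟩ := hbd
  have hPk : P k ≠ 0 := by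
    intro h0
    apply hjk
    rw [h0, mul_zero, Polynomial.derivative_zero, mul_zero]
  obtain ⟨M', _, _, m', hm', W', hW1, ⟨c', e', hc', hce'⟩, hW3⟩ := desc P (X k) (X j) Q
    ⟨1, c, e, hc, by rw [mul_one]; exact hce⟩ (by
      rw [aeval_X, aeval_X]
      exact hjk)
  have hF : Fam y Q W' e' := ⟨fun H hH => by rw [hrel H hH, hW1 H], c', hc', hce'⟩
  have hvk : W602.GT.val y (X k : MvPolynomial (Fin (n + 1)) ℂ) ≠ 0 := by
    intro h0
    rw [hrel (X k : MvPolynomial (Fin (n + 1)) ℂ) ⟨1, isHomogeneous_X ℂ k⟩, aeval_X] at h0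
    exact hPk h0
  have hflat := (hF.main hy.sub.dim hm' hy.sub.ne hy.sub.gen hQh).2.2.1 hL
    (W602.GT.val y (X j : MvPolynomial (Fin (n + 1)) ℂ) /
      W602.GT.val y (X k : MvPolynomial (Fin (n + 1)) ℂ))
  exact hW3 (hflat 1 (X j) (X k) (isHomogeneous_X ℂ j) (isHomogeneous_X ℂ k) hvk rfl)

end Pool.Agent.Y405.IL
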